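import Pool.Agent.H633R2.DkSOpt

/-!
# Densest k-Subgraph parameterized by modular-width is W[1]-hard
-/

namespace Pool.Agent.Results.MP_93e790_lc.DkSModularWidth

open Pool.Agent.H633R2 Pool.Agent.NPC

/-- Densest k-Subgraph (instances `(G, k, t)`: does some set of at most `k` vertices induce at
least `t` edges?) parameterized by the modular-width of `G` is W[1]-hard; and if this decision
problem is fixed-parameter tractable, or if the optimum value can be computed in fpt time (for the
parameter modular-width), then every problem in W[1] is fixed-parameter tractable. -/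
theorem result :
    W1Hard (fun x : List (List Bool) × ℕ × ℕ => modularWidth (graphOf x.1)) DenseSub ∧
    (IsFpt (fun x : List (List Bool) × ℕ × ℕ => modularWidth (graphOf x.1)) DenseSub ∨
        FptTime (fun x : List (List Bool) × ℕ => modularWidth (graphOf x.1)) maxEdges →
      ∀ (α : Type) [TEnc α] (κ : α → ℕ) (P : α → Prop), InW1 κ P → IsFpt κ P) := by
  have h := W1Hard.of_clique clique_reduces
  refine ⟨h, fun h1 α _ κ P hP => h.collapse ?_ hP⟩
  rcases h1 with h1 | h1
  · exact h1
  · exact H633.isFpt_of_maxEdges h1

end Pool.Agent.Results.MP_93e790_lc.DkSModularWidth
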